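import Pool.Agent.Lib.MP_b5021c_nt.H41.Rks

/-!
# Board b5, row D3F: facets of a full-dimensional pointed cone
-/

namespace Pool.Agent.B5.H41

set_option linter.unusedSectionVars false

variable {L : Type} [AddCommGroup L] [Module.Free ℤ L] [Module.Finite ℤ L]

/-- Adding an element outside the kernel of a functional raises the rank. -/
theorem rk_insert_lt (lam : L →+ ℤ) (Z : Set L) (hZ : ∀ a ∈ Z, lam a = 0) (b : L)
    (hb : lam b ≠ 0) : rk Z < rk (insert b Z) := by
  let M : Submodule ℤ L := Submodule.span ℤ (insert b Z)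
  let k : M →+ ℤ := lam.comp M.subtype.toAddMonoidHom
  have hbM : b ∈ M := Submodule.subset_span (Set.mem_insert _ _)
  have hk : k ≠ 0 := by
    intro h0
    have : k ⟨b, hbM⟩ = 0 := by rw [h0]; rfl
    exact hb this
  have h1 := rk_ker k hk
  have h2 : rk Z ≤ Module.finrank ℤ (Ker k) := by
    have h3 : Submodule.span ℤ Z ≤ (Ker k).map M.subtype := by
      rw [Submodule.span_le]
      intro a ha
      have haM : a ∈ M := Submodule.subset_span (Set.mem_insert_of_mem _ ha)
      exact ⟨⟨a, haM⟩, hZ a ha, rfl⟩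
    have h4 := Submodule.finrank_mono h3
    have h5 := Submodule.finrank_map_le M.subtype (Ker k)
    unfold rk; omega
  have h6 : rk (insert b Z) = Module.finrank ℤ M := rfl
  omega

/-- Separation: a functional zero on `Z`, not zero at an element with no multiple in the span. -/
theorem sep (Z : Set L) (v : L) (hv : ∀ n : ℤ, n ≠ 0 → n • v ∉ Submodule.span ℤ Z) :
    ∃ mu : L →+ ℤ, (∀ a ∈ Z, mu a = 0) ∧ mu v ≠ 0 := by
  let K : Submodule ℤ L := Submodule.span ℤ Z
  let Q := (L ⧸ K) ⧸ Submodule.torsion ℤ (L ⧸ K)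
  let f : L →ₗ[ℤ] Q := (Submodule.mkQ _).comp K.mkQ
  have hfree : Module.Free ℤ Q := inferInstance
  have hfv : f v ≠ 0 := by
    intro h0
    have h1 : K.mkQ v ∈ Submodule.torsion ℤ (L ⧸ K) := by
      rw [← Submodule.ker_mkQ (Submodule.torsion ℤ (L ⧸ K))]
      exact h0
    rw [Submodule.mem_torsion_iff] at h1
    obtain ⟨n, hn⟩ := h1
    have h2 : K.mkQ ((n : ℤ) • v) = 0 := by
      rw [map_smul]; exact hn
    rw [Submodule.mkQ_apply, Submodule.Quotient.mk_eq_zero] at h2
    exact hv n (nonZeroDivisors.ne_zero n.2) h2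
  have h3 : ¬ ∀ φ : Module.Dual ℤ Q, φ (f v) = 0 := by
    intro h; exact hfv ((Module.forall_dual_apply_eq_zero_iff ℤ (f v)).mp h)
  push Not at h3
  obtain ⟨φ, hφ⟩ := h3
  refine ⟨(φ.comp f).toAddMonoidHom, fun a ha => ?_, hφ⟩
  change φ (f a) = 0
  have h4 : K.mkQ a = 0 := by
    rw [Submodule.mkQ_apply, Submodule.Quotient.mk_eq_zero]
    exact Submodule.subset_span ha
  change φ ((Submodule.mkQ _) (K.mkQ a)) = 0
  rw [h4, map_zero, map_zero]

/-- The zero set on `S`. -/
def Zs (S : Finset L) (lam : L →+ ℤ) : Set L := {a | a ∈ S ∧ lam a = 0}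

theorem step (S : Finset L) (e : L) (hS : rk (S : Set L) = Module.finrank ℤ L) (lam : L →+ ℤ)
    (h0 : ∀ a ∈ S, 0 ≤ lam a) (he : lam e ≠ 0) (hr : rk (Zs S lam) + 1 ≠ Module.finrank ℤ L) :
    ∃ nu : L →+ ℤ, (∀ a ∈ S, 0 ≤ nu a) ∧ nu e ≠ 0 ∧ rk (Zs S lam) < rk (Zs S nu) := by
  classical
  have hlam : lam ≠ 0 := by
    rintro rfl; exact he rfl
  have hk := rk_ker lam hlam
  have hZk : rk (Zs S lam) ≤ Module.finrank ℤ (Ker lam) :=
    Submodule.finrank_mono (Submodule.span_le.mpr fun a ha => ha.2)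
  have hlt : rk (Zs S lam) < rk ((Ker lam : Submodule ℤ L) : Set L) := by
    have : rk ((Ker lam : Submodule ℤ L) : Set L) = Module.finrank ℤ (Ker lam) := by
      unfold rk; rw [Submodule.span_eq]
    omega
  obtain ⟨v, hvk, hv⟩ : ∃ v ∈ Ker lam, ∀ n : ℤ, n ≠ 0 → n • v ∉ Submodule.span ℤ (Zs S lam) := by
    by_contra hcon
    push Not at hcon
    exact absurd (rk_mult _ _ hcon) (not_le.mpr hlt)
  obtain ⟨mu, hmu, hmuv⟩ := sep (Zs S lam) v hv
  have hvl : lam v = 0 := hvk
  -- a functional vanishing on `S` vanishes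
  have hfull : ∀ nu : L →+ ℤ, (∀ a ∈ S, nu a = 0) → nu = 0 := by
    intro nu hnu
    by_contra hne
    have h1 := rk_ker nu hne
    have h2 : rk (S : Set L) ≤ Module.finrank ℤ (Ker nu) :=
      Submodule.finrank_mono (Submodule.span_le.mpr fun a ha => hnu a ha)
    omega
  set P : Finset L := S.filter fun a => lam a ≠ 0 with hP
  have hPpos : ∀ a ∈ P, 0 < lam a := by
    intro a ha
    rw [hP, Finset.mem_filter] at ha
    exact lt_of_le_of_ne (h0 a ha.1) (Ne.symm ha.2)
  have hPne : P.Nonempty := by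
    rw [Finset.nonempty_iff_ne_empty]
    intro hE
    refine hlam (hfull lam fun a ha => ?_)
    by_contra hne
    have : a ∈ P := by rw [hP, Finset.mem_filter]; exact ⟨ha, hne⟩
    rw [hE] at this
    simp at this
  let rat : L → ℚ := fun a => (mu a : ℚ) / (lam a : ℚ)
  obtain ⟨a, haP, ha⟩ := P.exists_min_image rat hPne
  obtain ⟨b, hbP, hb⟩ := P.exists_max_image rat hPne
  have hcross : ∀ x ∈ P, ∀ y ∈ P, rat x ≤ rat y → mu x * lam y ≤ mu y * lam x := by
    intro x hx y hy hxy
    have hx' : (0 : ℚ) < lam x := by exact_mod_cast hPpos x hx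
    have hy' : (0 : ℚ) < lam y := by exact_mod_cast hPpos y hy
    have h3 := (div_le_div_iff₀ hx' hy').mp hxy
    exact_mod_cast h3
  have hsplit : ∀ x ∈ S, x ∈ P ∨ (lam x = 0 ∧ mu x = 0) := by
    intro x hx
    by_cases h : lam x = 0
    · exact Or.inr ⟨h, hmu x ⟨hx, h⟩⟩
    · left; rw [hP, Finset.mem_filter]; exact ⟨hx, h⟩
  have haS : a ∈ S := (Finset.mem_filter.mp haP).1
  have hbS : b ∈ S := (Finset.mem_filter.mp hbP).1
  have hla := hPpos a haP
  have hlb := hPpos b hbP
  have hneq : mu a * lam b ≠ mu b * lam a := by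
    intro heq
    have hz : (lam a • mu - mu a • lam : L →+ ℤ) = 0 := by
      apply hfull
      intro x hx
      change lam a * mu x - mu a * lam x = 0
      rcases hsplit x hx with hxP | ⟨h1, h2⟩
      · have h3 := hcross a haP x hxP (ha x hxP)
        have h4 := hcross x hxP b hbP (hb x hxP)
        have hlx := hPpos x hxP
        -- mu a * lam x ≤ mu x * lam a,  mu x * lam b ≤ mu b * lam x
        have h5 : mu x * lam a * lam b ≤ mu a * lam x * lam b := by
          calc mu x * lam a * lam b = (mu x * lam b) * lam a := by ring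
            _ ≤ (mu b * lam x) * lam a := mul_le_mul_of_nonneg_right h4 hla.le
            _ = (mu b * lam a) * lam x := by ring
            _ = (mu a * lam b) * lam x := by rw [heq]
            _ = mu a * lam x * lam b := by ring
        have h6 := le_of_mul_le_mul_right h5 hlb
        linarith
      · rw [h1, h2]; ring
    have h7 : (lam a • mu - mu a • lam : L →+ ℤ) v = 0 := by rw [hz]; rfl
    have h8 : lam a * mu v - mu a * lam v = 0 := h7
    rw [hvl, mul_zero, sub_zero] at h8
    rcases mul_eq_zero.mp h8 with h9 | h9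
    · omega
    · exact hmuv h9
  by_cases hA : lam a * mu e - mu a * lam e = 0
  · -- use the maximum
    refine ⟨mu b • lam - lam b • mu, fun x hx => ?_, ?_, ?_⟩
    · change 0 ≤ mu b * lam x - lam b * mu x
      rcases hsplit x hx with hxP | ⟨h1, h2⟩
      · have h4 := hcross x hxP b hbP (hb x hxP)
        linarith
      · rw [h1, h2]; simp
    · change mu b * lam e - lam b * mu e ≠ 0
      intro hB
      apply hneq
      have h9 : (mu a * lam b - mu b * lam a) * lam e = 0 := by
        linear_combination (-lam b) * hA - lam a * hB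
      rcases mul_eq_zero.mp h9 with h | h
      · linarith
      · exact absurd h he
    · refine lt_of_lt_of_le (rk_insert_lt lam (Zs S lam) (fun a ha => ha.2) b hlb.ne')
        (rk_mono ?_)
      intro x hx
      rcases hx with rfl | hx
      · refine ⟨hbS, ?_⟩
        change mu x * lam x - lam x * mu x = 0
        ring
      · refine ⟨hx.1, ?_⟩
        change mu b * lam x - lam b * mu x = 0
        rw [hx.2, hmu x hx]; simp
  · refine ⟨lam a • mu - mu a • lam, fun x hx => ?_, hA, ?_⟩
    · change 0 ≤ lam a * mu x - mu a * lam x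
      rcases hsplit x hx with hxP | ⟨h1, h2⟩
      · have h3 := hcross a haP x hxP (ha x hxP)
        linarith
      · rw [h1, h2]; simp
    · refine lt_of_lt_of_le (rk_insert_lt lam (Zs S lam) (fun a ha => ha.2) a hla.ne')
        (rk_mono ?_)
      intro x hx
      rcases hx with rfl | hx
      · refine ⟨haS, ?_⟩
        change lam x * mu x - mu x * lam x = 0
        ring
      · refine ⟨hx.1, ?_⟩
        change lam a * mu x - mu a * lam x = 0
        rw [hx.2, hmu x hx]; simp

/-- Row D3F. -/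
theorem d3f (_h : RkS) : D3S := by
  classical
  intro L _ _ _ S e ⟨lam0, hlam0⟩ hS he
  have hstart : ∃ lam : L →+ ℤ, (∀ a ∈ S, 0 ≤ lam a) ∧ lam e ≠ 0 := by
    by_cases h : lam0 e = 0
    · have h3 : ¬ ∀ φ : Module.Dual ℤ L, φ e = 0 := by
        intro h; exact he ((Module.forall_dual_apply_eq_zero_iff ℤ e).mp h)
      push Not at h3
      obtain ⟨mu, hmu⟩ := h3
      refine ⟨(∑ a ∈ S, |mu a|) • lam0 + mu.toAddMonoidHom, fun a ha => ?_, ?_⟩
      · change 0 ≤ (∑ a ∈ S, |mu a|) * lam0 a + mu a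
        have h1 : |mu a| ≤ ∑ a ∈ S, |mu a| :=
          Finset.single_le_sum (f := fun a => |mu a|) (fun i _ => abs_nonneg _) ha
        have h2 : (1 : ℤ) ≤ lam0 a := hlam0 a ha
        have h4 : 0 ≤ ∑ a ∈ S, |mu a| := Finset.sum_nonneg fun i _ => abs_nonneg _
        have h5 : ∑ a ∈ S, |mu a| ≤ (∑ a ∈ S, |mu a|) * lam0 a := by nlinarith
        have h6 := neg_abs_le (mu a)
        linarith
      · change (∑ a ∈ S, |mu a|) * lam0 e + mu e ≠ 0
        rw [h, mul_zero, zero_add]; exact hmu
    · exact ⟨lam0, fun a ha => (hlam0 a ha).le, h⟩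
  have key : ∀ n : ℕ, ∀ lam : L →+ ℤ, (∀ a ∈ S, 0 ≤ lam a) → lam e ≠ 0 →
      Module.finrank ℤ L - rk (Zs S lam) = n →
      ∃ lam : L →+ ℤ, (∀ a ∈ S, 0 ≤ lam a) ∧ lam e ≠ 0 ∧
        rk (Zs S lam) + 1 = Module.finrank ℤ L := by
    intro n
    induction n using Nat.strong_induction_on with
    | _ n ih =>
      intro lam h0 he' hn
      by_cases hr : rk (Zs S lam) + 1 = Module.finrank ℤ L
      · exact ⟨lam, h0, he', hr⟩
      · obtain ⟨nu, h1, h2, h3⟩ := step S e hS lam h0 he' hr
        have h4 := rk_le (Zs S nu)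
        exact ih (Module.finrank ℤ L - rk (Zs S nu)) (by omega) nu h1 h2 rfl
  obtain ⟨lam, h0, he'⟩ := hstart
  exact key _ lam h0 he' rfl

end Pool.Agent.B5.H41
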