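import Pool.Agent.Lib.MP_b5021c_nt.IfaceD

/-!
# Board b5, row RKS: ranks of finite sets in a lattice
-/

namespace Pool.Agent.B5.H41

set_option linter.unusedSectionVars false

variable {L L' : Type} [AddCommGroup L] [Module.Free ℤ L] [Module.Finite ℤ L]
  [AddCommGroup L'] [Module.Free ℤ L'] [Module.Finite ℤ L']

theorem span_image (f : L →+ L') (S : Set L) :
    Submodule.span ℤ (f '' S) = (Submodule.span ℤ S).map f.toIntLinearMap := by
  rw [Submodule.map_span]; rfl

theorem rk_mono {S T : Set L} (h : S ⊆ T) : rk S ≤ rk T :=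
  Submodule.finrank_mono (Submodule.span_mono h)

theorem rk_le (S : Set L) : rk S ≤ Module.finrank ℤ L := Submodule.finrank_le _

theorem rk_image_inj (f : L →+ L') (S : Set L) (hf : Function.Injective f) :
    rk (f '' S) = rk S := by
  unfold rk
  rw [span_image]
  exact (LinearEquiv.finrank_eq (Submodule.equivMapOfInjective f.toIntLinearMap hf
    (Submodule.span ℤ S))).symm

theorem rk_image (f : L →+ L') (S : Set L) : rk (f '' S) ≤ rk S := by
  unfold rk
  rw [span_image]
  exact Submodule.finrank_map_le _ _

theorem rk_union (S T : Set L) : rk (S ∪ T) ≤ rk S + rk T := by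
  unfold rk
  rw [Submodule.span_union]
  have h := LinearMap.finrank_range_le
    ((Submodule.span ℤ S).subtype.coprod (Submodule.span ℤ T).subtype)
  rw [LinearMap.range_coprod, Submodule.range_subtype, Submodule.range_subtype,
    Module.finrank_prod] at h
  exact h

theorem rk_single (b : L) (hb : b ≠ 0) : rk {b} = 1 := by
  unfold rk
  have e := LinearEquiv.toSpanNonzeroSingleton ℤ L b hb
  rw [← e.finrank_eq]
  exact Module.finrank_self ℤ

theorem rk_mult (S T : Set L) (h : ∀ a ∈ S, ∃ n : ℤ, n ≠ 0 ∧ n • a ∈ Submodule.span ℤ T) :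
    rk S ≤ rk T := by
  have h1 : ∀ a ∈ Submodule.span ℤ S, ∃ n : ℤ, n ≠ 0 ∧ n • a ∈ Submodule.span ℤ T := by
    intro a ha
    induction ha using Submodule.span_induction with
    | mem x hx => exact h x hx
    | zero => exact ⟨1, one_ne_zero, by simp⟩
    | add x y _ _ hx hy =>
        obtain ⟨m, hm, hm'⟩ := hx
        obtain ⟨n, hn, hn'⟩ := hy
        refine ⟨m * n, mul_ne_zero hm hn, ?_⟩
        rw [smul_add]
        refine Submodule.add_mem _ ?_ ?_
        · rw [mul_comm, mul_smul]; exact Submodule.smul_mem _ _ hm'
        · rw [mul_smul]; exact Submodule.smul_mem _ _ hn'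
    | smul c x _ hx =>
        obtain ⟨m, hm, hm'⟩ := hx
        refine ⟨m, hm, ?_⟩
        rw [smul_comm]; exact Submodule.smul_mem _ _ hm'
  set B := Module.finBasis ℤ (Submodule.span ℤ S) with hB
  choose n hn hn' using fun i => h1 (B i) (B i).2
  have hli : LinearIndependent ℤ (fun i => (⟨n i • (B i : L), hn' i⟩ : Submodule.span ℤ T)) := by
    have h2 : LinearIndependent ℤ (fun i => n i • B i) := by
      rw [Fintype.linearIndependent_iff]
      intro g hg i
      have h3 := Fintype.linearIndependent_iff.mp B.linearIndependent (fun i => g i * n i)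
        (by simpa only [mul_smul] using hg) i
      exact (mul_eq_zero.mp h3).resolve_right (hn i)
    have h4 : LinearIndependent ℤ (fun i => ((n i • B i : Submodule.span ℤ S) : L)) :=
      h2.map' (Submodule.span ℤ S).subtype (Submodule.ker_subtype _)
    exact LinearIndependent.of_comp (Submodule.span ℤ T).subtype h4
  have h5 := hli.fintype_card_le_finrank
  rw [Fintype.card_fin] at h5
  exact h5

theorem rk_ker (k : L →+ ℤ) (hk : k ≠ 0) :
    Module.finrank ℤ (Ker k) + 1 = Module.finrank ℤ L := by
  have h1 := Submodule.finrank_quotient_add_finrank (Ker k)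
  have h2 : Module.finrank ℤ (L ⧸ Ker k) = Module.finrank ℤ (LinearMap.range k.toIntLinearMap) :=
    (LinearMap.quotKerEquivRange k.toIntLinearMap).finrank_eq
  have h3 : Module.finrank ℤ (LinearMap.range k.toIntLinearMap) = 1 := by
    apply le_antisymm
    · have := Submodule.finrank_le (LinearMap.range k.toIntLinearMap)
      simpa using this
    · obtain ⟨a, ha⟩ : ∃ a, k a ≠ 0 := by
        by_contra hcon
        push Not at hcon
        exact hk (AddMonoidHom.ext hcon)
      have h4 : Submodule.span ℤ {k a} ≤ LinearMap.range k.toIntLinearMap := by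
        rw [Submodule.span_singleton_le_iff_mem]
        exact ⟨a, rfl⟩
      have h5 := Submodule.finrank_mono h4
      have h6 : Module.finrank ℤ (Submodule.span ℤ {k a}) = 1 := rk_single (k a) ha
      omega
  omega

/-- Row RKS. -/
theorem rks : RkS := by
  intro L L' _ _ _ _ _ _
  refine ⟨rk_ker, fun S T h => rk_mono h, rk_le, fun f S hf => rk_image_inj f S hf, rk_image,
    rk_union, rk_single, fun S => ?_, rk_mult, ?_⟩
  · unfold rk; rw [Submodule.span_insert_zero]
  · rw [Module.finrank_prod]; simp

end Pool.Agent.B5.H41
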